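import Mathlib

/-!
# MP_25bc1d_an, Q1: the shortest forbidden order pattern of a symmetric tent map

We prove Q1: for every `μ ∈ (1/2, 1)`, if `n` is the smallest length of a `μ`-forbidden pattern,
then `T_μ` avoids `σ_n = (n-1) n 1 2 ⋯ (n-2)`.
-/

namespace Pool.Agent.Results.MP_25bc1d_an.ShortestForbidden

open Set Filter Topology

/-- The symmetric tent map `T_μ`. -/
noncomputable def T (μ x : ℝ) : ℝ := 2 * μ * min x (1 - x)

/-- `π = π_1 ⋯ π_n` is a permutation of `{1, …, n}` in one-line notation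
(`π_{i+1}` is `π i`, for `i : Fin n`). -/
def IsPerm {n : ℕ} (π : Fin n → ℕ) : Prop := Function.Injective π ∧ ∀ i, 1 ≤ π i ∧ π i ≤ n

/-- The pattern `π` is realised by `f` on `[0,1]`, that is, `π ∈ Allow(f)`: for some `x ∈ [0,1]`
the values `x, f(x), …, f^{n-1}(x)` are in the same relative order as `π_1, …, π_n`. -/
def Allowed (f : ℝ → ℝ) {n : ℕ} (π : Fin n → ℕ) : Prop :=
  ∃ x ∈ Icc (0 : ℝ) 1, ∀ i j : Fin n, π i < π j ↔ f^[i] x < f^[j] x

/-- There is a `μ`-forbidden pattern of length `n`. -/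
def HasForbidden (μ : ℝ) (n : ℕ) : Prop :=
  ∃ π : Fin n → ℕ, IsPerm π ∧ Allowed (T 1) π ∧ ¬ Allowed (T μ) π

/-- `σ_n = (n-1) n 1 2 3 ⋯ (n-2)`. -/
def sigma (n : ℕ) (i : Fin n) : ℕ :=
  if (i : ℕ) = 0 then n - 1 else if (i : ℕ) = 1 then n else (i : ℕ) - 1

/-! ### Basic facts -/

lemma T_left (μ : ℝ) {x : ℝ} (h : x ≤ 1 / 2) : T μ x = 2 * μ * x := by
  rw [T, min_eq_left (by linarith)]

lemma T_right (μ : ℝ) {x : ℝ} (h : 1 / 2 ≤ x) : T μ x = 2 * μ * (1 - x) := by
  rw [T, min_eq_right (by linarith)]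

lemma continuous_T : Continuous fun p : ℝ × ℝ => T p.1 p.2 := by
  unfold T
  fun_prop

lemma continuous_iter (m : ℕ) : Continuous fun p : ℝ × ℝ => (T p.1)^[m] p.2 := by
  induction m with
  | zero => exact continuous_snd
  | succ m ih =>
    simp only [Function.iterate_succ_apply']
    exact continuous_T.comp (continuous_fst.prodMk ih)

lemma allowed_of_lt {f : ℝ → ℝ} {n : ℕ} {π : Fin n → ℕ} (hπ : Function.Injective π) {x : ℝ}
    (hx : x ∈ Icc (0 : ℝ) 1) (h : ∀ i j : Fin n, π i < π j → f^[i] x < f^[j] x) :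
    Allowed f π := by
  refine ⟨x, hx, fun i j => ⟨h i j, fun hij => ?_⟩⟩
  rcases lt_trichotomy (π i) (π j) with h1 | h1 | h1
  · exact h1
  · rw [hπ h1] at hij
    exact absurd hij (lt_irrefl _)
  · exact absurd (h j i h1) (not_lt.mpr hij.le)

/-- The eventually periodic orbit lemma. -/
lemma transfer {f g : ℝ → ℝ} {x z : ℝ} {i j : ℕ} (hij : i < j) (hf : f^[i] x = f^[j] x)
    (hd : ∀ b < j, ∀ a < b, f^[a] x ≠ f^[b] x) (hg : g^[i] z = g^[j] z) :
    ∀ N k l, k + l = N → f^[k] x = f^[l] x → g^[k] z = g^[l] z := by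
  intro N
  induction N using Nat.strong_induction_on with
  | _ N ih =>
    intro k l hkl h
    have red : ∀ (f : ℝ → ℝ) (x : ℝ) (t : ℕ), f^[i] x = f^[j] x → f^[j + t] x = f^[i + t] x := by
      intro f x t h
      rw [add_comm j t, add_comm i t, Function.iterate_add_apply, Function.iterate_add_apply, h]
    rcases lt_or_ge l j with hl | hl
    · rcases lt_or_ge k j with hk | hk
      · rcases lt_trichotomy k l with h1 | h1 | h1
        · exact absurd h (hd l hl k h1)
        · rw [h1]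
        · exact absurd h.symm (hd k hk l h1)
      · obtain ⟨t, rfl⟩ : ∃ t, k = j + t := ⟨k - j, by omega⟩
        rw [red f x t hf] at h
        rw [red g z t hg]
        exact ih (i + t + l) (by omega) (i + t) l rfl h
    · obtain ⟨t, rfl⟩ : ∃ t, l = j + t := ⟨l - j, by omega⟩
      rw [red f x t hf] at h
      rw [red g z t hg]
      exact ih (k + (i + t)) (by omega) k (i + t) rfl h

/-- If an orbit has a repetition among its first `n` points, it avoids the turning point. -/
lemma no_crit {f : ℝ → ℝ} {n : ℕ} (hH : ∀ a b, a < b → b < n → f^[a] (1 / 2) ≠ f^[b] (1 / 2))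
    {y : ℝ} {a b : ℕ} (hab : a < b) (hb : b < n) (h : f^[a] y = f^[b] y) {m : ℕ} :
    f^[m] y ≠ 1 / 2 := by
  intro hm
  rcases le_or_gt m a with h1 | h1
  · obtain ⟨a', rfl⟩ : ∃ a', a = a' + m := ⟨a - m, by omega⟩
    obtain ⟨b', rfl⟩ : ∃ b', b = b' + m := ⟨b - m, by omega⟩
    rw [Function.iterate_add_apply, Function.iterate_add_apply, hm] at h
    exact hH a' b' (by omega) (by omega) h
  · obtain ⟨t, rfl⟩ : ∃ t, m = t + a := ⟨m - a, by omega⟩
    have h2 : f^[b - a] (1 / 2) = 1 / 2 := by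
      have e1 : f^[t + b] y = f^[t + a] y := by
        rw [Function.iterate_add_apply, Function.iterate_add_apply, h]
      have e2 : t + b = (b - a) + (t + a) := by omega
      rw [e2, Function.iterate_add_apply, hm] at e1
      exact e1
    exact hH 0 (b - a) (by omega) (by omega) h2.symm

/-- the sign of the slope of `T_ν^m` near a point of `T_ν`-orbit `y` -/
noncomputable def e (ν y : ℝ) : ℕ → ℝ
  | 0 => 1
  | m + 1 => e ν y m * (if (T ν)^[m] y < 1 / 2 then 1 else -1)

lemma e_sq (ν y : ℝ) (m : ℕ) : e ν y m = 1 ∨ e ν y m = -1 := by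
  induction m with
  | zero => exact Or.inl rfl
  | succ m ih =>
    rw [e]
    split_ifs <;> rcases ih with h | h <;> rw [h] <;> norm_num

/-- `(ν', y')` follows the itinerary of `(ν, y)` for the first `n - 1` steps. -/
def Fol (n : ℕ) (ν y ν' y' : ℝ) : Prop :=
  ∀ m, m + 1 < n → ((T ν)^[m] y < 1 / 2 ∧ (T ν')^[m] y' < 1 / 2) ∨
    (1 / 2 < (T ν)^[m] y ∧ 1 / 2 < (T ν')^[m] y')

lemma slope {n : ℕ} {ν y ν' y₁ y₂ : ℝ} (h1 : Fol n ν y ν' y₁) (h2 : Fol n ν y ν' y₂) {m : ℕ}
    (hm : m < n) :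
    (T ν')^[m] y₁ - (T ν')^[m] y₂ = e ν y m * (2 * ν') ^ m * (y₁ - y₂) := by
  induction m with
  | zero => simp [e]
  | succ m ih =>
    have ih := ih (by omega)
    rw [Function.iterate_succ_apply', Function.iterate_succ_apply', e]
    rcases h1 m hm with ⟨a1, a2⟩ | ⟨a1, a2⟩ <;> rcases h2 m hm with ⟨b1, b2⟩ | ⟨b1, b2⟩
    · rw [T_left _ a2.le, T_left _ b2.le, if_pos a1]
      linear_combination (2 * ν') * ih
    · exact absurd b1 (not_lt.mpr a1.le)
    · exact absurd a1 (not_lt.mpr b1.le)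
    · rw [T_right _ a2.le, T_right _ b2.le, if_neg (not_lt.mpr a1.le)]
      linear_combination (-(2 * ν')) * ih

lemma fol_eventually {n : ℕ} {ν y : ℝ} (h : ∀ m, (T ν)^[m] y ≠ 1 / 2) :
    ∀ᶠ p : ℝ × ℝ in 𝓝 (ν, y), Fol n ν y p.1 p.2 := by
  have h1 : ∀ m ∈ Finset.range n, ∀ᶠ p : ℝ × ℝ in 𝓝 (ν, y),
      ((T ν)^[m] y < 1 / 2 ∧ (T p.1)^[m] p.2 < 1 / 2) ∨
      (1 / 2 < (T ν)^[m] y ∧ 1 / 2 < (T p.1)^[m] p.2) := by
    intro m _
    have hc := (continuous_iter m).tendsto (ν, y)
    rcases lt_or_gt_of_ne (h m) with h2 | h2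
    · filter_upwards [hc.eventually (gt_mem_nhds h2)] with p hp
      exact Or.inl ⟨h2, hp⟩
    · filter_upwards [hc.eventually (lt_mem_nhds h2)] with p hp
      exact Or.inr ⟨h2, hp⟩
  have h2 := (Filter.eventually_all_finset (Finset.range n)).mpr h1
  filter_upwards [h2] with p hp m hm
  exact hp m (Finset.mem_range.mpr (by omega))

lemma pow_lt_pow_of {β : ℝ} (hβ : 1 < β) {a b : ℕ} (h : a < b) : β ^ a < β ^ b :=
  pow_lt_pow_right₀ hβ h

/-- the sign of `s β^a - t β^b`, `s, t = ±1`, does not depend on `β > 1` -/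
lemma sign_indep {s t : ℝ} (hs : s = 1 ∨ s = -1) (ht : t = 1 ∨ t = -1) {a b : ℕ} (hab : a ≠ b)
    {β β' : ℝ} (hβ : 1 < β) (hβ' : 1 < β') : 0 < (s * β ^ a - t * β ^ b) * (s * β' ^ a - t * β' ^ b)
    := by
  have p1 : 0 < β ^ a := by positivity
  have p2 : 0 < β ^ b := by positivity
  have p3 : 0 < β' ^ a := by positivity
  have p4 : 0 < β' ^ b := by positivity
  rcases lt_or_gt_of_ne hab with h | h
  · have q1 := pow_lt_pow_of hβ h
    have q2 := pow_lt_pow_of hβ' h
    rcases hs with rfl | rfl <;> rcases ht with rfl | rfl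
    · apply mul_pos_of_neg_of_neg <;> linarith
    · apply mul_pos <;> linarith
    · apply mul_pos_of_neg_of_neg <;> linarith
    · apply mul_pos <;> linarith
  · have q1 := pow_lt_pow_of hβ h
    have q2 := pow_lt_pow_of hβ' h
    rcases hs with rfl | rfl <;> rcases ht with rfl | rfl
    · apply mul_pos <;> linarith
    · apply mul_pos <;> linarith
    · apply mul_pos_of_neg_of_neg <;> linarith
    · apply mul_pos_of_neg_of_neg <;> linarith

lemma iter_zero (ν : ℝ) (m : ℕ) : (T ν)^[m] 0 = 0 := by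
  induction m with
  | zero => rfl
  | succ m ih => rw [Function.iterate_succ_apply', ih, T_left _ (by norm_num)]; ring

lemma iter_one (ν : ℝ) {m : ℕ} (hm : 1 ≤ m) : (T ν)^[m] 1 = 0 := by
  obtain ⟨k, rfl⟩ : ∃ k, m = k + 1 := ⟨m - 1, by omega⟩
  rw [Function.iterate_succ_apply, T_right _ (by norm_num)]
  simpa using iter_zero ν k

/-- The main local step: allowed patterns survive in the limit. -/
lemma local_step {n : ℕ} {π : Fin n → ℕ} (hπ : Function.Injective π) {ν : ℝ} (h1 : 1 / 2 < ν)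
    (hH : ∀ a b, a < b → b < n → (T ν)^[a] (1 / 2) ≠ (T ν)^[b] (1 / 2))
    {νs ys : ℕ → ℝ} {y : ℝ} (hν : Tendsto νs atTop (𝓝 ν)) (hy : Tendsto ys atTop (𝓝 y))
    (hys : ∀ k, ys k ∈ Icc (0 : ℝ) 1)
    (hall : ∀ k, ∀ i j : Fin n, π i < π j → (T (νs k))^[i] (ys k) < (T (νs k))^[j] (ys k)) :
    Allowed (T ν) π := by
  have hy01 : y ∈ Icc (0 : ℝ) 1 := isClosed_Icc.mem_of_tendsto hy (Eventually.of_forall hys)
  have hlim : ∀ m, Tendsto (fun k => (T (νs k))^[m] (ys k)) atTop (𝓝 ((T ν)^[m] y)) := fun m =>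
    ((continuous_iter m).tendsto (ν, y)).comp (hν.prodMk_nhds hy)
  have hle : ∀ i j : Fin n, π i < π j → (T ν)^[i] y ≤ (T ν)^[j] y := fun i j hij =>
    le_of_tendsto_of_tendsto' (hlim i) (hlim j) fun k => (hall k i j hij).le
  by_cases hc : ∃ b, b < n ∧ ∃ a, a < b ∧ (T ν)^[a] y = (T ν)^[b] y
  swap
  · push Not at hc
    refine allowed_of_lt hπ hy01 fun i j hij => lt_of_le_of_ne (hle i j hij) ?_
    have hne : (i : ℕ) ≠ j := fun h => by
      rw [Fin.ext h] at hij
      exact lt_irrefl _ hij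
    rcases lt_or_gt_of_ne hne with h | h
    · exact hc j j.2 i h
    · exact (hc i i.2 j h).symm
  -- the first repetition
  classical
  obtain ⟨hjn, i, hij, hrep⟩ := Nat.find_spec hc
  set j := Nat.find hc with hj
  have hmin : ∀ b < j, ∀ a < b, (T ν)^[a] y ≠ (T ν)^[b] y := by
    intro b hb a ha h
    exact Nat.find_min hc hb ⟨by omega, a, ha, h⟩
  clear_value j
  have hcrit : ∀ m, (T ν)^[m] y ≠ 1 / 2 := fun m => no_crit hH hij hjn hrep
  -- a neighbourhood with constant itineraries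
  have hnb := (fol_eventually (n := n) hcrit).and
    ((continuous_fst.tendsto (ν, y)).eventually (lt_mem_nhds h1))
  rw [Metric.eventually_nhds_iff] at hnb
  obtain ⟨δ, hδ, hnb⟩ := hnb
  have hG : ∀ {ν' y' : ℝ}, |ν' - ν| < δ → |y' - y| < δ → Fol n ν y ν' y' := by
    intro ν' y' h2 h3
    refine (hnb (y := (ν', y')) ?_).1
    rw [Prod.dist_eq, Real.dist_eq, Real.dist_eq]
    exact max_lt h2 h3
  have hβ' : ∀ {ν' : ℝ}, |ν' - ν| < δ → 1 < 2 * ν' := by
    intro ν' h2
    have := (hnb (y := (ν', y)) (by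
      rw [Prod.dist_eq, Real.dist_eq, Real.dist_eq]
      exact max_lt h2 (by simpa using hδ))).2
    simp only at this
    linarith
  have hβ : 1 < 2 * ν := by linarith
  have h0 : |ν - ν| < δ := by simpa using hδ
  have h0y : |y - y| < δ := by simpa using hδ
  -- the slope of the difference
  set η := δ / 2 with hη
  have hη0 : 0 < η := by rw [hη]; linarith
  have hηδ : |y + η - y| < δ := by rw [add_sub_cancel_left, abs_of_pos hη0, hη]; linarith
  have hηδ' : |y - η - y| < δ := by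
    rw [sub_sub_cancel_left, abs_neg, abs_of_pos hη0, hη]; linarith
  have hin : i < n := by omega
  let Dd : ℝ → ℝ → ℝ := fun ν' y' => (T ν')^[i] y' - (T ν')^[j] y'
  have hprod : Dd ν (y + η) * Dd ν (y - η) < 0 := by
    have s1 := slope (hG h0 hηδ) (hG h0 h0y) hin
    have s2 := slope (hG h0 hηδ) (hG h0 h0y) hjn
    have s3 := slope (hG h0 hηδ') (hG h0 h0y) hin
    have s4 := slope (hG h0 hηδ') (hG h0 h0y) hjn
    have t1 : Dd ν (y + η) = (e ν y i * (2 * ν) ^ i - e ν y j * (2 * ν) ^ j) * η := by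
      change (T ν)^[i] (y + η) - (T ν)^[j] (y + η) = _
      linear_combination s1 - s2 + hrep
    have t2 : Dd ν (y - η) = -((e ν y i * (2 * ν) ^ i - e ν y j * (2 * ν) ^ j) * η) := by
      change (T ν)^[i] (y - η) - (T ν)^[j] (y - η) = _
      linear_combination s3 - s4 + hrep
    have t3 := sign_indep (e_sq ν y i) (e_sq ν y j) (ne_of_lt hij) hβ hβ
    rw [t1, t2]
    have t4 : 0 < η * η := mul_pos hη0 hη0
    nlinarith [mul_pos t3 t4]
  have hcD : ∀ z, Continuous fun ν' => Dd ν' z := fun z =>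
    ((continuous_iter i).comp (continuous_id.prodMk continuous_const)).sub
      ((continuous_iter j).comp (continuous_id.prodMk continuous_const))
  have hev1 : ∀ᶠ k in atTop, Dd (νs k) (y + η) * Dd (νs k) (y - η) < 0 := by
    have := (((hcD (y + η)).mul (hcD (y - η))).tendsto ν).comp hν
    exact this.eventually (gt_mem_nhds hprod)
  have hev2 : ∀ᶠ k in atTop, |νs k - ν| < δ := by
    have := hν.eventually (Metric.ball_mem_nhds ν hδ)
    filter_upwards [this] with k hk
    rwa [Real.dist_eq] at hk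
  have hev3 : ∀ᶠ k in atTop, |ys k - y| < δ := by
    have := hy.eventually (Metric.ball_mem_nhds y hδ)
    filter_upwards [this] with k hk
    rwa [Real.dist_eq] at hk
  obtain ⟨k, hk1, hk2, hk3⟩ := (hev1.and (hev2.and hev3)).exists
  set ν' := νs k with hν'
  -- the continuation of the repetition
  obtain ⟨α, hα, hα0⟩ : ∃ α ∈ Icc (y - η) (y + η), Dd ν' α = 0 := by
    have hcont : Continuous fun z => Dd ν' z :=
      ((continuous_iter i).comp (continuous_const.prodMk continuous_id)).sub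
        ((continuous_iter j).comp (continuous_const.prodMk continuous_id))
    rcases lt_or_gt_of_ne (show Dd ν' (y - η) ≠ 0 from fun h => by rw [h, mul_zero] at hk1; exact lt_irrefl _ hk1) with h | h
    · have h' : 0 < Dd ν' (y + η) := by
        by_contra hcon
        have := mul_nonneg_of_nonpos_of_nonpos (not_lt.mp hcon) h.le
        linarith
      obtain ⟨α, hα, hα0⟩ := intermediate_value_Icc (show y - η ≤ y + η by linarith)
        hcont.continuousOn (show (0 : ℝ) ∈ Icc (Dd ν' (y - η)) (Dd ν' (y + η)) from ⟨h.le, h'.le⟩)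
      exact ⟨α, hα, hα0⟩
    · have h' : Dd ν' (y + η) < 0 := by
        by_contra hcon
        have := mul_nonneg (not_lt.mp hcon) h.le
        linarith
      obtain ⟨α, hα, hα0⟩ := intermediate_value_Icc' (show y - η ≤ y + η by linarith)
        hcont.continuousOn (show (0 : ℝ) ∈ Icc (Dd ν' (y + η)) (Dd ν' (y - η)) from ⟨h'.le, h.le⟩)
      exact ⟨α, hα, hα0⟩
  have hαδ : |α - y| < δ := by
    rw [abs_lt]
    constructor <;> linarith [hα.1, hα.2]
  have hαrep : (T ν')^[i] α = (T ν')^[j] α := sub_eq_zero.mp hα0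
  have hFα := hG hk2 hαδ
  have hFk := hG hk2 hk3
  set d := ys k - α with hd
  -- differences at `ys k`
  have hdiff : ∀ a b : ℕ, a < n → b < n → (T ν)^[a] y = (T ν)^[b] y →
      (T ν')^[a] (ys k) - (T ν')^[b] (ys k) =
        (e ν y a * (2 * ν') ^ a - e ν y b * (2 * ν') ^ b) * d := by
    intro a b ha hb hab
    have r1 := transfer hij hrep hmin hαrep _ a b rfl hab
    have r2 := slope hFk hFα ha
    have r3 := slope hFk hFα hb
    linear_combination r2 - r3 + r1
  have hdne : d ≠ 0 := by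
    intro hd0
    have r := hdiff i j hin hjn hrep
    rw [hd0, mul_zero] at r
    have hne : (⟨i, hin⟩ : Fin n) ≠ ⟨j, hjn⟩ := fun h => by
      have := congrArg Fin.val h
      simp only at this
      omega
    rcases lt_or_gt_of_ne (fun h => hne (hπ h)) with h | h
    · have := hall k ⟨i, hin⟩ ⟨j, hjn⟩ h
      simp only at this
      linarith
    · have := hall k ⟨j, hjn⟩ ⟨i, hin⟩ h
      simp only at this
      linarith
  -- direction at the boundary
  have hdir : ∀ᶠ t in 𝓝[>] (0 : ℝ), y + t * d ∈ Icc (0 : ℝ) 1 := by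
    have hts : Tendsto (fun t : ℝ => y + t * d) (𝓝[>] 0) (𝓝 y) := by
      have : Continuous fun t : ℝ => y + t * d := by fun_prop
      have := (this.tendsto 0).mono_left (nhdsWithin_le_nhds (s := Ioi (0 : ℝ)))
      simpa using this
    have hsl := sign_indep (e_sq ν y i) (e_sq ν y j) (ne_of_lt hij) (hβ' hk2) (hβ' hk2)
    have hsl0 : e ν y i * (2 * ν') ^ i - e ν y j * (2 * ν') ^ j ≠ 0 := by
      intro h; rw [h] at hsl; simp at hsl
    have key : ∀ {z : ℝ}, z = y → (T ν')^[i] z = (T ν')^[j] z → α = z := by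
      intro z hz hz'
      have hFz : Fol n ν y ν' z := by rw [hz]; exact hG hk2 h0y
      have r2 := slope hFα hFz hin
      have r3 := slope hFα hFz hjn
      have r4 : (e ν y i * (2 * ν') ^ i - e ν y j * (2 * ν') ^ j) * (α - z) = 0 := by
        linear_combination r3 - r2 + hαrep - hz'
      rcases mul_eq_zero.mp r4 with h | h
      · exact absurd h hsl0
      · linarith
    rcases eq_or_lt_of_le hy01.1 with hy0 | hy0
    · have hα' : α = 0 := key hy0 (by rw [iter_zero, iter_zero])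
      have hd0 : 0 < d := by
        rcases lt_or_gt_of_ne hdne with h | h
        · have := (hys k).1; rw [hd, hα'] at h; linarith
        · exact h
      filter_upwards [hts.eventually (gt_mem_nhds (show y < 1 by linarith)),
        self_mem_nhdsWithin] with t ht1 ht2
      exact ⟨by have : 0 < t * d := mul_pos ht2 hd0
                linarith, ht1.le⟩
    · rcases eq_or_lt_of_le hy01.2 with hy1 | hy1
      · have hi1 : 1 ≤ i := by
          by_contra hi0
          have hi0 : i = 0 := by omega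
          rw [hi0, hy1, iter_one _ (by omega : 1 ≤ j)] at hrep
          simp at hrep
        have hα' : α = 1 := key hy1.symm (by rw [iter_one _ hi1, iter_one _ (by omega)])
        have hd0 : d < 0 := by
          rcases lt_or_gt_of_ne hdne with h | h
          · exact h
          · have := (hys k).2; rw [hd, hα'] at h; linarith
        filter_upwards [hts.eventually (lt_mem_nhds (show 0 < y by linarith)),
          self_mem_nhdsWithin] with t ht1 ht2
        refine ⟨ht1.le, ?_⟩
        have : t * d < 0 := mul_neg_of_pos_of_neg ht2 hd0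
        linarith
      · filter_upwards [hts.eventually (lt_mem_nhds hy0), hts.eventually (gt_mem_nhds hy1)]
          with t ht1 ht2
        exact ⟨ht1.le, ht2.le⟩
  have hts : Tendsto (fun t : ℝ => y + t * d) (𝓝[>] 0) (𝓝 y) := by
    have : Continuous fun t : ℝ => y + t * d := by fun_prop
    have := (this.tendsto 0).mono_left (nhdsWithin_le_nhds (s := Ioi (0 : ℝ)))
    simpa using this
  have hevF : ∀ᶠ t in 𝓝[>] (0 : ℝ), |y + t * d - y| < δ := by
    have := hts.eventually (Metric.ball_mem_nhds y hδ)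
    filter_upwards [this] with t ht
    rwa [Real.dist_eq] at ht
  have hevS : ∀ᶠ t in 𝓝[>] (0 : ℝ), ∀ i j : Fin n, (T ν)^[i] y < (T ν)^[j] y →
      (T ν)^[i] (y + t * d) < (T ν)^[j] (y + t * d) := by
    rw [eventually_all]
    intro a
    rw [eventually_all]
    intro b
    by_cases hab : (T ν)^[a] y < (T ν)^[b] y
    · have c1 : Tendsto (fun t : ℝ => (T ν)^[a] (y + t * d)) (𝓝[>] 0) (𝓝 ((T ν)^[a] y)) :=
        ((continuous_iter a).tendsto (ν, y)).comp (tendsto_const_nhds.prodMk_nhds hts)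
      have c2 : Tendsto (fun t : ℝ => (T ν)^[b] (y + t * d)) (𝓝[>] 0) (𝓝 ((T ν)^[b] y)) :=
        ((continuous_iter b).tendsto (ν, y)).comp (tendsto_const_nhds.prodMk_nhds hts)
      filter_upwards [c1.eventually_lt c2 hab] with t ht _
      exact ht
    · exact Eventually.of_forall fun t h => absurd h hab
  obtain ⟨t, ht1, ht2, ht3, ht4⟩ :=
    (hdir.and (hevF.and (hevS.and self_mem_nhdsWithin))).exists
  have ht0 : 0 < t := ht4
  refine allowed_of_lt hπ ht1 fun a b hab => ?_
  by_cases hcoin : (T ν)^[a] y = (T ν)^[b] y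
  · -- coincident pair
    have r1 := hdiff a b a.2 b.2 hcoin
    have r2 := hall k a b hab
    have r3 := slope (hG h0 ht2) (hG h0 h0y) a.2
    have r4 := slope (hG h0 ht2) (hG h0 h0y) b.2
    have hne : (a : ℕ) ≠ b := fun h => by
      rw [Fin.ext h] at hab
      exact lt_irrefl _ hab
    have r5 := sign_indep (e_sq ν y a) (e_sq ν y b) hne hβ (hβ' hk2)
    set P := e ν y a * (2 * ν) ^ (a : ℕ) - e ν y b * (2 * ν) ^ (b : ℕ) with hP
    set Q := e ν y a * (2 * ν') ^ (a : ℕ) - e ν y b * (2 * ν') ^ (b : ℕ) with hQ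
    have r6 : Q * d < 0 := by linarith
    have r7 : (T ν)^[a] (y + t * d) - (T ν)^[b] (y + t * d) = P * (t * d) := by
      rw [hP]
      linear_combination r3 - r4 + hcoin
    have r8 : P * (t * d) < 0 := by
      by_contra hcon
      have hcon : 0 ≤ P * (t * d) := not_lt.mp hcon
      have hPd : 0 ≤ P * d := by
        by_contra h
        have h : P * d < 0 := not_le.mp h
        have : t * (P * d) < 0 := mul_neg_of_pos_of_neg ht0 h
        linarith
      -- `P d ≥ 0`, `Q d < 0` but `P Q > 0`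
      have : P * d * (Q * d) ≤ 0 := mul_nonpos_of_nonneg_of_nonpos hPd r6.le
      have h2 : 0 < P * Q * (d * d) := mul_pos r5 (mul_self_pos.mpr hdne)
      linarith
    linarith
  · exact ht3 a b (lt_of_le_of_ne (hle a b hab) hcoin)

/-- Patterns persist as long as the turning point has no repetition in its first `n` points. -/
lemma persist {n : ℕ} {π : Fin n → ℕ} (hπ : Function.Injective π) {μ : ℝ} (h1 : 1 / 2 < μ)
    (h2 : μ < 1) (hH : ∀ ν, μ ≤ ν → ν < 1 → ∀ a b, a < b → b < n →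
      (T ν)^[a] (1 / 2) ≠ (T ν)^[b] (1 / 2)) (h : Allowed (T 1) π) : Allowed (T μ) π := by
  by_contra hcon
  set B : Set ℝ := Icc μ 1 ∩ {ν | ¬ Allowed (T ν) π} with hB
  have hopen : IsOpen {ν | Allowed (T ν) π} := by
    rw [isOpen_iff_mem_nhds]
    rintro ν ⟨x, hx, hxp⟩
    have hev : ∀ᶠ ν' in 𝓝 ν, ∀ i j : Fin n, π i < π j → (T ν')^[i] x < (T ν')^[j] x := by
      rw [eventually_all]
      intro i
      rw [eventually_all]
      intro j
      by_cases hij : π i < π j
      · have c1 : Tendsto (fun ν' => (T ν')^[i] x) (𝓝 ν) (𝓝 ((T ν)^[i] x)) :=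
          ((continuous_iter i).tendsto (ν, x)).comp (tendsto_id.prodMk_nhds tendsto_const_nhds)
        have c2 : Tendsto (fun ν' => (T ν')^[j] x) (𝓝 ν) (𝓝 ((T ν)^[j] x)) :=
          ((continuous_iter j).tendsto (ν, x)).comp (tendsto_id.prodMk_nhds tendsto_const_nhds)
        filter_upwards [c1.eventually_lt c2 ((hxp i j).mp hij)] with t ht _
        exact ht
      · exact Eventually.of_forall fun t h => absurd h hij
    filter_upwards [hev] with ν' hν'
    exact allowed_of_lt hπ hx hν'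
  have hBc : IsCompact B := isCompact_Icc.inter_right hopen.isClosed_compl
  obtain ⟨ν, hνB, hνmax⟩ := hBc.exists_isGreatest ⟨μ, ⟨le_rfl, h2.le⟩, hcon⟩
  have hν1 : ν < 1 := by
    rcases eq_or_lt_of_le hνB.1.2 with h3 | h3
    · exact absurd h (by have := hνB.2; rw [h3] at this; exact this)
    · exact h3
  let νs : ℕ → ℝ := fun k => ν + (1 - ν) * (1 / ((k : ℝ) + 1))
  have hνs1 : ∀ k, ν < νs k := fun k => by
    have : 0 < (1 - ν) * (1 / ((k : ℝ) + 1)) := mul_pos (by linarith) (by positivity)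
    change ν < ν + _
    linarith
  have hνs2 : ∀ k, νs k ≤ 1 := fun k => by
    have h3 : 1 / ((k : ℝ) + 1) ≤ 1 := by
      rw [div_le_one (by positivity)]
      have : (0 : ℝ) ≤ k := Nat.cast_nonneg k
      linarith
    have : (1 - ν) * (1 / ((k : ℝ) + 1)) ≤ (1 - ν) * 1 :=
      mul_le_mul_of_nonneg_left h3 (by linarith)
    change ν + _ ≤ 1
    linarith
  have hνs3 : Tendsto νs atTop (𝓝 ν) := by
    have := (tendsto_one_div_add_atTop_nhds_zero_nat (𝕜 := ℝ)).const_mul (1 - ν)
    have := this.const_add ν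
    rw [mul_zero, add_zero] at this
    exact this
  have hall : ∀ k, Allowed (T (νs k)) π := by
    intro k
    by_contra h3
    have : νs k ∈ B := ⟨⟨hνB.1.1.trans (hνs1 k).le, hνs2 k⟩, h3⟩
    exact absurd (hνmax this) (not_le.mpr (hνs1 k))
  choose ys hys hyp using hall
  obtain ⟨y, -, φ, hφ, hlim⟩ := isCompact_Icc.tendsto_subseq hys
  refine hνB.2 (local_step hπ (lt_of_lt_of_le h1 hνB.1.1) (hH ν hνB.1.1 hν1)
    (νs := νs ∘ φ) (ys := ys ∘ φ) (hνs3.comp hφ.tendsto_atTop) hlim (fun k => hys _)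
    (fun k i j hij => (hyp (φ k) i j).mp hij))

/-! ### The orbit of the turning point -/

/-- auxiliary polynomials -/
def hh (β : ℝ) : ℕ → ℝ
  | 0 => 1
  | k + 1 => β * hh β k - 1

lemma hh_eq (β : ℝ) (k : ℕ) : (β - 1) * hh β k = 1 - β ^ k * (2 - β) := by
  induction k with
  | zero => simp only [hh]; ring
  | succ k ih => simp only [hh]; linear_combination β * ih

lemma mono {β β' : ℝ} (h1 : 1 < β) (h2 : β ≤ β') {N : ℕ} (h : β ^ N * (2 - β) < 1) :
    β' ^ N * (2 - β') < 1 := by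
  have key : ∀ k, 0 < hh β k → hh β k ≤ hh β' k := by
    intro k
    induction k with
    | zero => intro _; exact le_rfl
    | succ k ih =>
      intro hk
      simp only [hh] at hk ⊢
      have h3 : 0 < hh β k := by
        by_contra hcon
        have : β * hh β k ≤ 0 := mul_nonpos_of_nonneg_of_nonpos (by linarith) (not_lt.mp hcon)
        linarith
      have h4 := ih h3
      nlinarith
  have h3 : 0 < hh β N := by
    have := hh_eq β N
    by_contra hcon
    have : (β - 1) * hh β N ≤ 0 := mul_nonpos_of_nonneg_of_nonpos (by linarith) (not_lt.mp hcon)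
    linarith
  have h4 := key N h3
  have h5 := hh_eq β' N
  have h6 : 0 < (β' - 1) * hh β' N := mul_pos (by linarith) (by linarith)
  linarith

/-- the orbit of the turning point -/
lemma crit_orbit {n : ℕ} {ν : ℝ} (h1 : 1 / 2 < ν) (h2 : ν < 1)
    (h : (2 * ν) ^ (n + 1) * (1 - ν) < 1 / 2) {k : ℕ} (hk : k ≤ n) :
    (T ν)^[k + 2] (1 / 2) = (2 * ν) ^ (k + 1) * (1 - ν) := by
  induction k with
  | zero =>
    change T ν (T ν (1 / 2)) = _
    rw [T_left ν le_rfl, T_right ν (by linarith)]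
    ring
  | succ k ih =>
    have ih := ih (by omega)
    rw [show k + 1 + 2 = (k + 2) + 1 by ring, Function.iterate_succ_apply', ih, T_left]
    · ring
    · have h3 : (2 * ν) ^ (k + 1) ≤ (2 * ν) ^ (n + 1) :=
        pow_le_pow_right₀ (by linarith) (by omega)
      have h4 : (2 * ν) ^ (k + 1) * (1 - ν) ≤ (2 * ν) ^ (n + 1) * (1 - ν) :=
        mul_le_mul_of_nonneg_right h3 (by linarith)
      linarith

/-- no repetitions for the turning point -/
lemma crit_distinct {n : ℕ} {ν : ℝ} (h1 : 1 / 2 < ν) (h2 : ν < 1)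
    (h : (2 * ν) ^ (n + 1) * (1 - ν) < 1 / 2) {a b : ℕ} (hab : a < b) (hb : b < n + 3) :
    (T ν)^[a] (1 / 2) ≠ (T ν)^[b] (1 / 2) := by
  have hc : ∀ k ≤ n, (T ν)^[k + 2] (1 / 2) = (2 * ν) ^ (k + 1) * (1 - ν) :=
    fun k hk => crit_orbit h1 h2 h hk
  have hlt : ∀ k ≤ n, (2 * ν) ^ (k + 1) * (1 - ν) < 1 / 2 := by
    intro k hk
    have h3 : (2 * ν) ^ (k + 1) ≤ (2 * ν) ^ (n + 1) := pow_le_pow_right₀ (by linarith) (by omega)
    have h4 : (2 * ν) ^ (k + 1) * (1 - ν) ≤ (2 * ν) ^ (n + 1) * (1 - ν) :=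
      mul_le_mul_of_nonneg_right h3 (by linarith)
    linarith
  have hc1 : T ν (1 / 2) = ν := by rw [T_left ν le_rfl]; ring
  rcases a with _ | _ | a
  · rcases b with _ | _ | b
    · omega
    · change (1 / 2 : ℝ) ≠ T ν (1 / 2)
      rw [hc1]; exact h1.ne
    · rw [hc b (by omega)]
      exact (hlt b (by omega)).ne'
  · rcases b with _ | _ | b
    · omega
    · omega
    · rw [hc b (by omega)]
      change T ν (1 / 2) ≠ _
      rw [hc1]
      have := hlt b (by omega)
      intro h3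
      linarith
  · obtain ⟨b, rfl⟩ : ∃ b', b = b' + 2 := ⟨b - 2, by omega⟩
    rw [hc a (by omega), hc b (by omega)]
    have h3 : (2 * ν) ^ (a + 1) < (2 * ν) ^ (b + 1) := pow_lt_pow_right₀ (by linarith) (by omega)
    have h4 : (2 * ν) ^ (a + 1) * (1 - ν) < (2 * ν) ^ (b + 1) * (1 - ν) :=
      mul_lt_mul_of_pos_right h3 (by linarith)
    exact h4.ne

/-- If `σ_n` is allowed, the turning point comes back below `1/2` slowly. -/
lemma sigma_allowed {n : ℕ} {μ : ℝ} (h1 : 1 / 2 < μ)
    (h : Allowed (T μ) (sigma (n + 3))) : (2 * μ) ^ (n + 1) * (1 - μ) < 1 / 2 := by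
  obtain ⟨x, hx, hp⟩ := h
  set a : ℕ → ℝ := fun k => (T μ)^[k] x with ha
  have has : ∀ k, a (k + 1) = T μ (a k) := fun k => Function.iterate_succ_apply' _ _ _
  have hlt : ∀ i j (hi : i < n + 3) (hj : j < n + 3),
      sigma (n + 3) ⟨i, hi⟩ < sigma (n + 3) ⟨j, hj⟩ → a i < a j := fun i j hi hj h =>
    (hp ⟨i, hi⟩ ⟨j, hj⟩).mp h
  have h01 : a 0 < a 1 := hlt 0 1 (by omega) (by omega) (by simp [sigma])
  have h2s : ∀ k, k < n → a (k + 2) < a (k + 3) := by
    intro k hk
    apply hlt (k + 2) (k + 3) (by omega) (by omega)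
    simp [sigma]
  have h20 : ∀ k, k ≤ n → a (k + 2) < a 0 := by
    intro k hk
    apply hlt (k + 2) 0 (by omega) (by omega)
    simp [sigma]
    omega
  have ha0 : a 0 = x := rfl
  have hx0 := hx.1
  -- `a 1 > 1/2`
  have c1 : 1 / 2 < a 1 := by
    by_contra hcon
    have hcon : a 1 ≤ 1 / 2 := not_lt.mp hcon
    have h3 : a 2 = 2 * μ * a 1 := by rw [has 1, T_left _ hcon]
    have h4 := h20 0 (by omega)
    simp only [zero_add] at h4
    have h5 : 0 < a 1 := by rw [ha0] at h01; linarith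
    nlinarith
  have c2 : a 2 = 2 * μ * (1 - a 1) := by rw [has 1, T_right _ c1.le]
  -- `a (k+2) ≤ 1/2` for `k < n`
  have c3 : ∀ k, k < n → a (k + 2) ≤ 1 / 2 := by
    intro k hk
    by_contra hcon
    have hcon : 1 / 2 < a (k + 2) := not_le.mp hcon
    have h3 := h20 k hk.le
    have h4 : a (k + 3) = 2 * μ * (1 - a (k + 2)) := by rw [has (k + 2), T_right _ hcon.le]
    have h5 : a 1 = 2 * μ * (1 - a 0) := by rw [has 0, T_right _ (by linarith)]
    have h6 := h20 (k + 1) (by omega)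
    have h7 : a (k + 1 + 2) = a (k + 3) := rfl
    rw [h7] at h6
    nlinarith
  have c4 : ∀ k, k ≤ n → a (k + 2) = (2 * μ) ^ (k + 1) * (1 - a 1) := by
    intro k hk
    induction k with
    | zero => simp only [zero_add, pow_one]; exact c2
    | succ k ih =>
      have ih := ih (by omega)
      have h3 : a (k + 1 + 2) = T μ (a (k + 2)) := has (k + 2)
      rw [h3, T_left _ (c3 k (by omega)), ih]
      ring
  have c5 := c4 n le_rfl
  have c6 := h20 n le_rfl
  rw [c5] at c6
  have hP : 1 ≤ (2 * μ) ^ (n + 1) := one_le_pow₀ (by linarith)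
  rcases le_or_gt (a 0) (1 / 2) with h3 | h3
  · have h4 : a 1 = 2 * μ * a 0 := by rw [has 0, T_left _ h3]
    have h5 : a 1 ≤ μ := by nlinarith
    have h6 : (2 * μ) ^ (n + 1) * (1 - μ) ≤ (2 * μ) ^ (n + 1) * (1 - a 1) :=
      mul_le_mul_of_nonneg_left (by linarith) (by linarith)
    linarith
  · have h4 : a 1 = 2 * μ * (1 - a 0) := by rw [has 0, T_right _ h3.le]
    rw [h4] at c6
    have h5 : (2 * μ) ^ (n + 1) * (1 - 2 * μ * (1 - a 0)) =
        (2 * μ) ^ (n + 1) * (1 - μ) + (2 * μ) ^ (n + 1) * (2 * μ) * (a 0 - 1 / 2) := by ring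
    have h6 : 1 ≤ (2 * μ) ^ (n + 1) * (2 * μ) := by nlinarith
    nlinarith

/-- If `T_μ` allows `σ_n`, it allows every pattern of length `n` which `T_1` allows. -/
theorem allowed_of_sigma {n : ℕ} {μ : ℝ} (h1 : 1 / 2 < μ) (h2 : μ < 1)
    (hs : Allowed (T μ) (sigma n)) {π : Fin n → ℕ} (hπ : Function.Injective π)
    (h : Allowed (T 1) π) : Allowed (T μ) π := by
  apply persist hπ h1 h2 _ h
  intro ν hν1 hν2 a b hab hb
  rcases Nat.lt_or_ge n 3 with hn | hn
  · -- short patterns
    have hb1 : b = 1 := by omega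
    have ha0 : a = 0 := by omega
    subst hb1 ha0
    change (1 / 2 : ℝ) ≠ T ν (1 / 2)
    rw [T_left ν le_rfl]
    intro h3
    linarith
  · obtain ⟨m, rfl⟩ : ∃ m, n = m + 3 := ⟨n - 3, by omega⟩
    have h3 := sigma_allowed h1 hs
    have h4 : (2 * μ) ^ (m + 1) * (2 - 2 * μ) < 1 := by linarith
    have h5 := mono (β := 2 * μ) (β' := 2 * ν) (by linarith) (by linarith) h4
    exact crit_distinct (lt_of_lt_of_le h1 hν1) hν2 (by linarith) hab hb

/-- **Q1 of MP_25bc1d_an holds**: if `n` is the smallest length of a `μ`-forbidden pattern, then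
`T_μ` avoids `σ_n`. -/
theorem result (μ : ℝ) (h1 : 1 / 2 < μ) (h2 : μ < 1) (n : ℕ)
    (hn : IsLeast {m | HasForbidden μ m} n) : ¬ Allowed (T μ) (sigma n) := by
  obtain ⟨π, hπ, hT, hf⟩ := hn.1
  intro hs
  exact hf (allowed_of_sigma h1 h2 hs hπ.1 hT)

end Pool.Agent.Results.MP_25bc1d_an.ShortestForbidden
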